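import Pool.Agent.Lib.MP_b5021c_nt.IfaceB

/-!
# Board b5, row EXT: characters and functionals extend from saturated sublattices
-/

namespace Pool.Agent.B5.H62

theorem exists_retraction (L : Type) [AddCommGroup L] [Module.Free ℤ L] [Module.Finite ℤ L]
    (K : Submodule ℤ L) (hK : Sat K) : ∃ r : L →ₗ[ℤ] K, ∀ a : K, r (a : L) = a := by
  have htf : Module.IsTorsionFree ℤ (L ⧸ K) := by
    apply Module.IsTorsionFree.of_smul_eq_zero
    intro n m h
    obtain ⟨a, rfl⟩ := K.mkQ_surjective m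
    rw [← map_smul, Submodule.mkQ_apply, Submodule.Quotient.mk_eq_zero] at h
    by_cases hn : n = 0
    · exact Or.inl hn
    · right
      rw [Submodule.mkQ_apply, Submodule.Quotient.mk_eq_zero]
      exact hK n a hn h
  have hfree : Module.Free ℤ (L ⧸ K) := Module.free_of_finite_type_torsion_free'
  obtain ⟨s, hs⟩ := K.mkQ.exists_rightInverse_of_surjective (Submodule.range_mkQ K)
  have hs' : ∀ x : L, K.mkQ (s (K.mkQ x)) = K.mkQ x := fun x => LinearMap.congr_fun hs (K.mkQ x)
  have hmem : ∀ x : L, ((LinearMap.id : L →ₗ[ℤ] L) - s.comp K.mkQ) x ∈ K := by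
    intro x
    have h1 : K.mkQ (((LinearMap.id : L →ₗ[ℤ] L) - s.comp K.mkQ) x) = 0 := by
      rw [LinearMap.sub_apply, map_sub, LinearMap.comp_apply, hs', LinearMap.id_apply, sub_self]
    rwa [Submodule.mkQ_apply, Submodule.Quotient.mk_eq_zero] at h1
  refine ⟨LinearMap.codRestrict K ((LinearMap.id : L →ₗ[ℤ] L) - s.comp K.mkQ) hmem, fun a => ?_⟩
  apply Subtype.ext
  have h0 : K.mkQ (a : L) = 0 := by
    rw [Submodule.mkQ_apply, Submodule.Quotient.mk_eq_zero]; exact a.2
  rw [LinearMap.codRestrict_apply, LinearMap.sub_apply, LinearMap.comp_apply, h0, map_zero,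
    sub_zero, LinearMap.id_apply]

theorem ext : ExtS := by
  intro L _ _ _ K hK
  obtain ⟨r, hr⟩ := exists_retraction L K hK
  refine ⟨fun u => ⟨u.compAddMonoidHom r.toAddMonoidHom, fun a => ?_⟩,
    fun k => ⟨k.comp r.toAddMonoidHom, fun a => ?_⟩⟩
  · change u (r (a : L)) = u a
    rw [hr]
  · change k (r (a : L)) = k a
    rw [hr]

end Pool.Agent.B5.H62
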